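import Pool.Agent.H336R3.Main

set_option autoImplicit false

/-!
# Sparse random regular graphs are not reconstructable from their 1- and 2-neighbourhoods

Full answer (Q1 is true, both parts) to MP_c07d40_pr. The definitions `Reg`, `nbhd`, `NbhdIso`,
`Reconstructable` and `regProb` are in `Pool/Agent/H336R3/ShotDefs.lean`.
-/

namespace Pool.Agent.Results.MP_c07d40_pr.OneTwoNeighbourhoods

open Filter Topology Pool.Agent.H336R3.Shot

/-- For every fixed `ε > 0` and all sequences `n k → ∞`, `d k` with `n k * d k` even: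
(i) if `n^ε ≤ d ≤ n^(1/2-ε)` eventually, then the uniformly random `d`-regular graph on `n`
vertices is a.a.s. not reconstructable from its `1`-neighbourhoods;
(ii) if `n^ε ≤ d ≤ n^(1/4-ε)` eventually, then it is a.a.s. not reconstructable from its
`2`-neighbourhoods. -/
theorem result : ∀ ε : ℝ, 0 < ε → ∀ n d : ℕ → ℕ, Tendsto n atTop atTop →
    (∀ᶠ k in atTop, Even (n k * d k)) →
    ((∀ᶠ k in atTop, (n k : ℝ) ^ ε ≤ d k ∧ (d k : ℝ) ≤ (n k : ℝ) ^ (1 / 2 - ε)) →
      Tendsto (fun k => regProb (n k) (d k) (fun G => ¬ Reconstructable 1 G)) atTop (𝓝 1)) ∧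
    ((∀ᶠ k in atTop, (n k : ℝ) ^ ε ≤ d k ∧ (d k : ℝ) ≤ (n k : ℝ) ^ (1 / 4 - ε)) →
      Tendsto (fun k => regProb (n k) (d k) (fun G => ¬ Reconstructable 2 G)) atTop (𝓝 1)) := by
  intro ε hε n d hn hev
  refine ⟨fun h => ?_, fun h => ?_⟩
  · refine not_rec_range (r := 1) le_rfl hε n d hn hev (h.mono fun k hk => hk.1)
      (h.mono fun k hk => ?_)
    have e : (1 : ℝ) / (2 * ((1 : ℕ) : ℝ)) - ε = 1 / 2 - ε := by norm_num
    rw [e]; exact hk.2
  · refine not_rec_range (r := 2) (by norm_num) hε n d hn hev (h.mono fun k hk => hk.1)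
      (h.mono fun k hk => ?_)
    have e : (1 : ℝ) / (2 * ((2 : ℕ) : ℝ)) - ε = 1 / 4 - ε := by norm_num
    rw [e]; exact hk.2

end Pool.Agent.Results.MP_c07d40_pr.OneTwoNeighbourhoods
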